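import Mathlib

/-!
# MP_589914_co: the kernel bound for coordinate families
-/

open scoped BigOperators

noncomputable section

namespace Pool.Agent.SD.H18

/-- The kernel of the coordinate families. -/
def ker {C : Type*} [DecidableEq C] (h : C → ℝ) (U S T : Finset C) : ℝ :=
  ∏ c ∈ U, if (c ∈ S ↔ c ∈ T) then 1 else (h c)⁻¹

/-- The kernel bound: the kernel minus the constant `∏ (1 + 1 / h c) / 2` is positive
semidefinite. -/
theorem kernel {ι C : Type*} [DecidableEq C] (s : Finset ι) (L : ι → Finset C) (h : C → ℝ)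
    (hh : ∀ c, 1 ≤ h c) (U : Finset C) : ∀ w : ι → ℝ,
    (∑ i ∈ s, w i) ^ 2 * ∏ c ∈ U, (1 + (h c)⁻¹) / 2 ≤
      ∑ i ∈ s, ∑ j ∈ s, w i * w j * ker h U (L i) (L j) := by
  classical
  induction U using Finset.induction_on with
  | empty =>
    intro w
    simp only [ker, Finset.prod_empty, mul_one]
    rw [sq, Finset.sum_mul_sum]
  | insert a U ha ih =>
    intro w
    have hpos : 0 < h a := lt_of_lt_of_le one_pos (hh a)
    have hinv : (h a)⁻¹ ≤ 1 := inv_le_one_of_one_le₀ (hh a)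
    have hinv0 : 0 < (h a)⁻¹ := inv_pos.2 hpos
    let e : ι → ℝ := fun i => if a ∈ L i then 1 else -1
    have hfac : ∀ i j, ker h (insert a U) (L i) (L j) =
        ((1 + (h a)⁻¹) / 2 + e i * e j * ((1 - (h a)⁻¹) / 2)) * ker h U (L i) (L j) := by
      intro i j
      rw [ker, Finset.prod_insert ha, ← ker]
      congr 1
      by_cases h1 : a ∈ L i <;> by_cases h2 : a ∈ L j <;> simp [e, h1, h2] <;> ring
    have hsum : ∑ i ∈ s, ∑ j ∈ s, w i * w j * ker h (insert a U) (L i) (L j) =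
        (1 + (h a)⁻¹) / 2 * ∑ i ∈ s, ∑ j ∈ s, w i * w j * ker h U (L i) (L j) +
        (1 - (h a)⁻¹) / 2 * ∑ i ∈ s, ∑ j ∈ s, (w i * e i) * (w j * e j) * ker h U (L i) (L j) := by
      rw [Finset.mul_sum, Finset.mul_sum, ← Finset.sum_add_distrib]
      refine Finset.sum_congr rfl fun i _ => ?_
      rw [Finset.mul_sum, Finset.mul_sum, ← Finset.sum_add_distrib]
      refine Finset.sum_congr rfl fun j _ => ?_
      rw [hfac]
      ring
    have h1 := ih w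
    have h2 := ih fun i => w i * e i
    have hprod : 0 ≤ ∏ c ∈ U, (1 + (h c)⁻¹) / 2 := by
      refine Finset.prod_nonneg fun c _ => ?_
      have : 0 < h c := lt_of_lt_of_le one_pos (hh c)
      positivity
    have h3 : 0 ≤ ∑ i ∈ s, ∑ j ∈ s, (w i * e i) * (w j * e j) * ker h U (L i) (L j) :=
      le_trans (mul_nonneg (sq_nonneg _) hprod) h2
    rw [Finset.prod_insert ha, hsum]
    have h4 : 0 ≤ (1 - (h a)⁻¹) / 2 * ∑ i ∈ s, ∑ j ∈ s, (w i * e i) * (w j * e j) *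
        ker h U (L i) (L j) := mul_nonneg (by linarith) h3
    have h5 := mul_le_mul_of_nonneg_left h1 (show 0 ≤ (1 + (h a)⁻¹) / 2 by linarith)
    calc (∑ i ∈ s, w i) ^ 2 * ((1 + (h a)⁻¹) / 2 * ∏ c ∈ U, (1 + (h c)⁻¹) / 2)
        = (1 + (h a)⁻¹) / 2 * ((∑ i ∈ s, w i) ^ 2 * ∏ c ∈ U, (1 + (h c)⁻¹) / 2) := by ring
      _ ≤ _ := by linarith

/-- the kernel as a product over the symmetric difference -/
theorem ker_eq {C : Type*} [DecidableEq C] [Fintype C] (h : C → ℝ) (S T : Finset C) :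
    ker h Finset.univ S T = ∏ c ∈ symmDiff S T, (h c)⁻¹ := by
  rw [ker]
  have : ∀ c, (if (c ∈ S ↔ c ∈ T) then (1 : ℝ) else (h c)⁻¹) =
      if c ∈ symmDiff S T then (h c)⁻¹ else 1 := by
    intro c
    by_cases h1 : c ∈ S <;> by_cases h2 : c ∈ T <;> simp [Finset.mem_symmDiff, h1, h2]
  rw [Finset.prod_congr rfl fun c _ => this c, Finset.prod_ite_mem, Finset.univ_inter]

/-- The bound for families. -/
theorem kernel_family {ι C : Type*} [DecidableEq C] [Fintype C] (s : Finset ι)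
    (L : ι → Finset C) (h : C → ℝ) (hh : ∀ c, 1 ≤ h c) (w : ι → ℝ) :
    (∑ i ∈ s, w i) ^ 2 * ∏ c, (1 + (h c)⁻¹) / 2 ≤
      ∑ i ∈ s, ∑ j ∈ s, w i * w j * ∏ c ∈ symmDiff (L i) (L j), (h c)⁻¹ := by
  have := kernel s L h hh Finset.univ w
  simpa only [ker_eq] using this

/-- The bound for functions on the subsets. -/
theorem kernel_subsets {C : Type*} [DecidableEq C] [Fintype C] (h : C → ℝ)
    (hh : ∀ c, 1 ≤ h c) (m : Finset C → ℝ) :
    (∑ S, m S) ^ 2 * ∏ c, (1 + (h c)⁻¹) / 2 ≤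
      ∑ S, ∑ T, m S * m T * ∏ c ∈ symmDiff S T, (h c)⁻¹ :=
  kernel_family Finset.univ id h hh m

theorem lam_card {ι C : Type*} [DecidableEq C] [Fintype C] (s : Finset ι)
    (L : ι → Finset C) (h : C → ℝ) (hh : ∀ c, 1 ≤ h c) :
    (s.card : ℝ) ^ 2 * ∏ c, (1 + (h c)⁻¹) / 2 ≤
      ∑ i ∈ s, ∑ j ∈ s, ∏ c ∈ symmDiff (L i) (L j), (h c)⁻¹ := by
  have := kernel_family s L h hh fun _ => 1
  simpa using this

/-- The exponent `log₂ (4 / 3)`. -/
def kap : ℝ := Real.logb 2 (4 / 3)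

theorem two_pow_kap : (2 : ℝ) ^ kap = 4 / 3 :=
  Real.rpow_logb (by norm_num) (by norm_num) (by norm_num)

theorem kap_pos : 0 < kap := Real.logb_pos (by norm_num) (by norm_num)

theorem kap_lt : kap < 5 / 12 := by
  rw [kap, Real.logb_lt_iff_lt_rpow (by norm_num) (by norm_num)]
  have h1 : ((4 : ℝ) / 3) ^ (12 : ℕ) < ((2 : ℝ) ^ ((5 : ℝ) / 12)) ^ (12 : ℕ) := by
    rw [← Real.rpow_mul_natCast (by norm_num)]
    norm_num
  exact lt_of_pow_lt_pow_left₀ 12 (by positivity) h1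

theorem four_pow_kap : (4 : ℝ) ^ kap = 16 / 9 := by
  rw [show (4 : ℝ) = 2 ^ (2 : ℕ) by norm_num, ← Real.rpow_natCast_mul (by norm_num), mul_comm,
    Real.rpow_mul_natCast (by norm_num), two_pow_kap]
  norm_num

theorem eight_pow_kap : (8 : ℝ) ^ kap = 64 / 27 := by
  rw [show (8 : ℝ) = 2 ^ (3 : ℕ) by norm_num, ← Real.rpow_natCast_mul (by norm_num), mul_comm,
    Real.rpow_mul_natCast (by norm_num), two_pow_kap]
  norm_num

theorem three_pow_kap : 3 / 2 ≤ (3 : ℝ) ^ kap := by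
  have h1 : ((3 : ℝ) / 2) ^ (2 : ℕ) ≤ ((3 : ℝ) ^ kap) ^ (2 : ℕ) := by
    rw [← Real.rpow_mul_natCast (by norm_num), mul_comm, Real.rpow_mul (by norm_num)]
    have h2 : (8 : ℝ) ^ kap ≤ ((3 : ℝ) ^ ((2 : ℕ) : ℝ)) ^ kap := by
      apply Real.rpow_le_rpow (by norm_num) _ kap_pos.le
      norm_num
    rw [eight_pow_kap] at h2
    linarith
  exact le_of_sq_le_sq h1 (by positivity)

/-- `2 h / (h + 1) ≤ h ^ κ` for natural numbers `h ≥ 1`. -/
theorem two_mul_div_le {h : ℕ} (hh : 1 ≤ h) : 2 * (h : ℝ) / (h + 1) ≤ (h : ℝ) ^ kap := by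
  have hpos : (0 : ℝ) < h + 1 := by positivity
  rcases Nat.lt_or_ge h 8 with h8 | h8
  · rcases Nat.lt_or_ge h 4 with h4 | h4
    · interval_cases h
      · norm_num
      · have := two_pow_kap
        norm_num [this]
      · have := three_pow_kap
        norm_num
        linarith
    · have h1 : (4 : ℝ) ^ kap ≤ (h : ℝ) ^ kap :=
        Real.rpow_le_rpow (by norm_num) (by exact_mod_cast h4) kap_pos.le
      rw [four_pow_kap] at h1
      refine le_trans ?_ h1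
      rw [div_le_div_iff₀ hpos (by norm_num)]
      have : (h : ℝ) ≤ 8 := by exact_mod_cast h8.le
      linarith
  · have h1 : (8 : ℝ) ^ kap ≤ (h : ℝ) ^ kap :=
      Real.rpow_le_rpow (by norm_num) (by exact_mod_cast h8) kap_pos.le
    rw [eight_pow_kap] at h1
    refine le_trans ?_ h1
    rw [div_le_div_iff₀ hpos (by norm_num)]
    have : (8 : ℝ) ≤ h := by exact_mod_cast h8
    linarith

/-- The product of the constants. -/
theorem prod_le {C : Type*} (U : Finset C) (h : C → ℕ) (hh : ∀ c, 1 ≤ h c) :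
    (∏ c ∈ U, (1 + ((h c : ℕ) : ℝ)⁻¹) / 2)⁻¹ ≤ ((∏ c ∈ U, h c : ℕ) : ℝ) ^ kap := by
  classical
  rw [← Finset.prod_inv_distrib, Nat.cast_prod,
    ← Real.finsetProd_rpow _ _ (fun c _ => Nat.cast_nonneg _)]
  refine Finset.prod_le_prod (fun c _ => ?_) fun c _ => ?_
  · have : 0 ≤ ((h c : ℕ) : ℝ)⁻¹ := by positivity
    positivity
  · have h0 : (0 : ℝ) < h c := by exact_mod_cast hh c
    have : ((1 + ((h c : ℕ) : ℝ)⁻¹) / 2)⁻¹ = 2 * (h c : ℝ) / (h c + 1) := by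
      field_simp
    rw [this]
    exact two_mul_div_le (hh c)

/-- The bound for families of sets of coordinates. -/
theorem card_family {ι C : Type*} [DecidableEq C] [Fintype C] (s : Finset ι)
    (L : ι → Finset C) (h : C → ℕ) (hh : ∀ c, 1 ≤ h c) :
    (s.card : ℝ) ^ 2 ≤ ((∏ c, h c : ℕ) : ℝ) ^ kap *
      ∑ i ∈ s, ∑ j ∈ s, ∏ c ∈ symmDiff (L i) (L j), ((h c : ℕ) : ℝ)⁻¹ := by
  have h1 := lam_card s L (fun c => (h c : ℝ)) (fun c => by exact_mod_cast hh c)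
  have h2 := prod_le Finset.univ h hh
  have hpos : 0 < ∏ c, (1 + ((h c : ℕ) : ℝ)⁻¹) / 2 := by
    refine Finset.prod_pos fun c _ => ?_
    positivity
  have hS : 0 ≤ ∑ i ∈ s, ∑ j ∈ s, ∏ c ∈ symmDiff (L i) (L j), ((h c : ℕ) : ℝ)⁻¹ :=
    Finset.sum_nonneg fun i _ => Finset.sum_nonneg fun j _ => Finset.prod_nonneg fun c _ => by
      positivity
  calc (s.card : ℝ) ^ 2 = (∏ c, (1 + ((h c : ℕ) : ℝ)⁻¹) / 2)⁻¹ *
        ((s.card : ℝ) ^ 2 * ∏ c, (1 + ((h c : ℕ) : ℝ)⁻¹) / 2) := by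
          field_simp
    _ ≤ (∏ c, (1 + ((h c : ℕ) : ℝ)⁻¹) / 2)⁻¹ *
        ∑ i ∈ s, ∑ j ∈ s, ∏ c ∈ symmDiff (L i) (L j), ((h c : ℕ) : ℝ)⁻¹ :=
          mul_le_mul_of_nonneg_left h1 (inv_nonneg.2 hpos.le)
    _ ≤ _ := mul_le_mul_of_nonneg_right h2 hS

end Pool.Agent.SD.H18
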