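import Pool.Agent.Helper18_SD.Co

open scoped Pointwise BigOperators

noncomputable section

namespace Pool.Agent.SD.H18

theorem card_step {H : Type*} [AddCommGroup H] (K L : AddSubgroup H) (h : K ≤ L) :
    Nat.card K * K.relIndex L = Nat.card L := by
  have := AddSubgroup.relIndex_mul_relIndex ⊥ K L bot_le h
  rwa [AddSubgroup.relIndex_bot_left, AddSubgroup.relIndex_bot_left] at this

/-- the product of the indices along a chain -/
theorem chain_prod {H : Type*} [AddCommGroup H] [Finite H] (K : ℕ → AddSubgroup H)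
    (hK : Antitone K) (h0 : K 0 = ⊤) (D : ℕ) (hD : K D = ⊥) :
    ∏ c ∈ Finset.range D, (K (c + 1)).relIndex (K c) = Nat.card H := by
  have key : ∀ m, (∏ c ∈ Finset.range m, (K (c + 1)).relIndex (K c)) * Nat.card (K m) =
      Nat.card H := by
    intro m
    induction m with
    | zero => rw [h0]; simp
    | succ m ih =>
      rw [Finset.prod_range_succ, mul_assoc, mul_comm ((K (m + 1)).relIndex (K m)),
        card_step _ _ (hK (Nat.le_succ m)), ih]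
  have := key D
  rw [hD] at this
  simpa using this

theorem ratio_eq {H : Type*} [AddCommGroup H] [Finite H] (K L : AddSubgroup H) (h : K ≤ L) :
    (Nat.card L : ℝ) / Nat.card K = K.relIndex L := by
  have h1 := card_step K L h
  have h2 : (Nat.card K : ℝ) ≠ 0 := by
    have : 0 < Nat.card K := Nat.card_pos
    positivity
  rw [div_eq_iff h2, ← h1]
  push_cast
  ring

/-- `R ≤ |H| ^ κ` -/
theorem chain_kap {H : Type*} [AddCommGroup H] [Finite H] (K : ℕ → AddSubgroup H)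
    (hK : Antitone K) (h0 : K 0 = ⊤) (D : ℕ) (hD : K D = ⊥) :
    ∏ c ∈ Finset.range D, 2 * ((Nat.card (K c) : ℝ) / Nat.card (K (c + 1))) /
      ((Nat.card (K c) : ℝ) / Nat.card (K (c + 1)) + 1) ≤ (Nat.card H : ℝ) ^ kap := by
  rw [← chain_prod K hK h0 D hD, Nat.cast_prod,
    ← Real.finsetProd_rpow _ _ (fun c _ => Nat.cast_nonneg _)]
  refine Finset.prod_le_prod (fun c _ => by positivity) fun c _ => ?_
  rw [ratio_eq _ _ (hK (Nat.le_succ c))]
  apply two_mul_div_le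
  have h1 := card_step _ _ (hK (Nat.le_succ c))
  have h2 : 0 < Nat.card (K c) := Nat.card_pos
  rcases Nat.eq_zero_or_pos ((K (c + 1)).relIndex (K c)) with h3 | h3
  · rw [h3, mul_zero] at h1
    omega
  · exact h3

/-- the consequence for the parameters of Q1 -/
theorem params {n : ℕ} (hn : 2 ≤ n) {h : ℕ} {ε : ℝ} (hε : ε ≤ 1 / 27) (s : Fin n → ℝ)
    (hH : (h : ℝ) ≤ (n : ℝ) ^ (2 + ε)) (hs : ∀ i, (n : ℝ) ^ (2 - ε) ≤ s i)
    (hb : (∑ i, s i) ^ 2 ≤ n * (h : ℝ) ^ (2 + kap)) : False := by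
  have hn1 : (1 : ℝ) < n := by exact_mod_cast hn
  have hn0 : (0 : ℝ) < n := by linarith
  have hk := kap_pos
  have hk2 := kap_lt
  have e1 : (n : ℝ) * (n : ℝ) ^ (2 - 1 / 27 : ℝ) ≤ ∑ i, s i := by
    calc (n : ℝ) * (n : ℝ) ^ (2 - 1 / 27 : ℝ) = ∑ _i : Fin n, (n : ℝ) ^ (2 - 1 / 27 : ℝ) := by simp
      _ ≤ ∑ i, s i := Finset.sum_le_sum fun i _ =>
          (Real.rpow_le_rpow_of_exponent_le hn1.le (by linarith)).trans (hs i)
  have e2 : (n : ℝ) * (n : ℝ) ^ (2 - 1 / 27 : ℝ) = (n : ℝ) ^ (3 - 1 / 27 : ℝ) := by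
    nth_rewrite 1 [← Real.rpow_one (n : ℝ)]
    rw [← Real.rpow_add hn0]
    norm_num
  have e3 : ((n : ℝ) ^ (3 - 1 / 27 : ℝ)) ^ 2 ≤ (∑ i, s i) ^ 2 :=
    pow_le_pow_left₀ (by positivity) (e2 ▸ e1) 2
  have e4 : (h : ℝ) ^ (2 + kap) ≤ ((n : ℝ) ^ (2 + 1 / 27 : ℝ)) ^ (2 + kap) :=
    Real.rpow_le_rpow (Nat.cast_nonneg _)
      (hH.trans (Real.rpow_le_rpow_of_exponent_le hn1.le (by linarith))) (by linarith)
  have e5 : (n : ℝ) ^ ((3 - 1 / 27 : ℝ) * 2) ≤
      (n : ℝ) ^ (1 + (2 + 1 / 27 : ℝ) * (2 + kap)) := by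
    calc (n : ℝ) ^ ((3 - 1 / 27 : ℝ) * 2) = ((n : ℝ) ^ (3 - 1 / 27 : ℝ)) ^ 2 := by
          rw [Real.rpow_mul hn0.le]
          norm_num
      _ ≤ n * (h : ℝ) ^ (2 + kap) := e3.trans hb
      _ ≤ n * ((n : ℝ) ^ (2 + 1 / 27 : ℝ)) ^ (2 + kap) :=
          mul_le_mul_of_nonneg_left e4 hn0.le
      _ = (n : ℝ) ^ (1 + (2 + 1 / 27 : ℝ) * (2 + kap)) := by
          rw [← Real.rpow_mul hn0.le, Real.rpow_add hn0, Real.rpow_one]
  have e6 := (Real.rpow_le_rpow_left_iff hn1).1 e5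
  nlinarith

end Pool.Agent.SD.H18
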